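import Mathlib

set_option autoImplicit false

namespace Pool.Agent.Results.MP_ee56ef_an.Counterexample

open MeasureTheory Filter Topology
open scoped Pointwise

/-- the terms of the multigeometric series `(k_1, …, k_m; 1/n)`, listed as a sequence
`k_1 n⁻¹, …, k_m n⁻¹, k_1 n⁻², …, k_m n⁻², …` (indices start at `0`) -/
noncomputable def term (n m : ℕ) [NeZero m] (k : Fin m → ℕ) (l : ℕ) : ℝ :=
  (k (Fin.ofNat m l) : ℝ) * ((n : ℝ)⁻¹) ^ (l / m + 1)

/-- the achievement set of a sequence -/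
noncomputable def achievementSet (x : ℕ → ℝ) : Set ℝ :=
  {s | ∃ A : Set ℕ, s = ∑' l, A.indicator x l}

/-- the set `Σ` of subsums of `k_1, …, k_m` -/
def subsums (m : ℕ) (k : Fin m → ℕ) : Finset ℕ :=
  (Finset.univ : Finset (Finset (Fin m))).image (fun S => ∑ i ∈ S, k i)

def kk : Fin 4 → ℕ := ![1, 8, 16, 16]

noncomputable def x (l : ℕ) : ℝ := term 12 4 kk l

lemma x_eq (l : ℕ) : x l = (kk (Fin.ofNat 4 l) : ℝ) * ((12 : ℝ)⁻¹) ^ (l / 4 + 1) := by
  unfold x term
  norm_num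

lemma x0 (j : ℕ) : x (4 * j) = (12 : ℝ)⁻¹ ^ (j + 1) := by
  rw [x_eq]
  have h1 : Fin.ofNat 4 (4 * j) = 0 := by apply Fin.ext; simp [Fin.ofNat]
  have h2 : 4 * j / 4 = j := by omega
  rw [h1, h2]; simp [kk]

lemma x1 (j : ℕ) : x (4 * j + 1) = 8 * (12 : ℝ)⁻¹ ^ (j + 1) := by
  rw [x_eq]
  have h1 : Fin.ofNat 4 (4 * j + 1) = 1 := by apply Fin.ext; simp [Fin.ofNat]
  have h2 : (4 * j + 1) / 4 = j := by omega
  rw [h1, h2]; simp [kk]

lemma x2 (j : ℕ) : x (4 * j + 2) = 16 * (12 : ℝ)⁻¹ ^ (j + 1) := by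
  rw [x_eq]
  have h1 : Fin.ofNat 4 (4 * j + 2) = 2 := by apply Fin.ext; simp [Fin.ofNat]
  have h2 : (4 * j + 2) / 4 = j := by omega
  rw [h1, h2]; simp [kk]

lemma x3 (j : ℕ) : x (4 * j + 3) = 16 * (12 : ℝ)⁻¹ ^ (j + 1) := by
  rw [x_eq]
  have h1 : Fin.ofNat 4 (4 * j + 3) = 3 := by apply Fin.ext; simp [Fin.ofNat]
  have h2 : (4 * j + 3) / 4 = j := by omega
  rw [h1, h2]; simp [kk]

lemma kk_le (i : Fin 4) : kk i ≤ 16 := by revert i; decide

lemma x_nonneg (l : ℕ) : 0 ≤ x l := by rw [x_eq]; positivity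

lemma pow_bound (l : ℕ) : ((12 : ℝ)⁻¹) ^ (l / 4 + 1) ≤ (3/5 : ℝ) ^ l := by
  obtain ⟨q, r, hr, rfl⟩ : ∃ q r, r < 4 ∧ l = 4 * q + r :=
    ⟨l / 4, l % 4, Nat.mod_lt _ (by norm_num), by omega⟩
  have h0 : (4 * q + r) / 4 = q := by omega
  rw [h0, pow_succ, pow_add, pow_mul]
  apply mul_le_mul
  · exact pow_le_pow_left₀ (by norm_num) (by norm_num) q
  · interval_cases r <;> norm_num
  · norm_num
  · positivity

lemma x_le (l : ℕ) : x l ≤ 16 * (3/5 : ℝ) ^ l := by
  rw [x_eq]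
  have h1 : (kk (Fin.ofNat 4 l) : ℝ) ≤ 16 := by exact_mod_cast kk_le _
  exact mul_le_mul h1 (pow_bound l) (by positivity) (by norm_num)

lemma summable_bound : Summable (fun l : ℕ => 16 * (3/5 : ℝ) ^ l) :=
  (summable_geometric_of_lt_one (by norm_num) (by norm_num)).mul_left 16

noncomputable def Phi (b : ℕ → Bool) : ℝ := ∑' l, (if b l then x l else 0)

lemma Phi_cont : Continuous Phi := by
  apply continuous_tsum (u := fun l : ℕ => 16 * (3/5 : ℝ) ^ l)
  · intro l
    exact (continuous_of_discreteTopology (f := fun t : Bool => if t then x l else (0:ℝ))).comp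
      (continuous_apply l)
  · exact summable_bound
  · intro l b
    split_ifs
    · rw [Real.norm_of_nonneg (x_nonneg l)]; exact x_le l
    · rw [norm_zero]; positivity

noncomputable def E : Set ℝ := achievementSet x

lemma E_eq : E = Set.range Phi := by
  classical
  ext s
  constructor
  · rintro ⟨A, rfl⟩
    refine ⟨fun l => decide (l ∈ A), ?_⟩
    unfold Phi
    congr 1
    ext l
    simp [Set.indicator_apply]
  · rintro ⟨b, rfl⟩
    refine ⟨{l | b l = true}, ?_⟩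
    unfold Phi
    congr 1
    ext l
    simp [Set.indicator_apply]

lemma E_compact : IsCompact E := by
  rw [E_eq]; exact isCompact_range Phi_cont

lemma finset_mem (A : Finset ℕ) : ∑ l ∈ A, x l ∈ E := by
  refine ⟨(A : Set ℕ), ?_⟩
  rw [← Finset.tsum_subtype' A x]
  exact tsum_subtype (A : Set ℕ) x

/-- every `N / (3 · 12^k)` is in `(1/3) ℤ + E` -/
lemma expand (k : ℕ) : ∀ N : ℤ, ∃ m : ℤ, ∃ A : Finset ℕ,
    (∀ l ∈ A, l < 4 * k ∨ (4 * k < l ∧ l < 4 * (k + 1))) ∧
    (N : ℝ) / 3 * (12 : ℝ)⁻¹ ^ k = m / 3 + ∑ l ∈ A, x l := by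
  induction k with
  | zero =>
    intro N
    exact ⟨N, ∅, by simp, by simp⟩
  | succ k ih =>
    intro N
    -- choose the new digits
    have key : ∃ (N' : ℤ) (B : Finset ℕ), (∀ l ∈ B, l = 4 * k ∨ (4 * (k + 1) < l ∧ l < 4 * (k + 2))) ∧
        (N : ℝ) / 3 * (12 : ℝ)⁻¹ ^ (k + 1) = (N' : ℝ) / 3 * (12 : ℝ)⁻¹ ^ k + ∑ l ∈ B, x l := by
      have e1 : x (4 * k) = (12 : ℝ)⁻¹ ^ k * 12⁻¹ := by rw [x0, pow_succ]
      have e2 : x (4 * (k + 1) + 1) = 8 * ((12 : ℝ)⁻¹ ^ k * 12⁻¹ * 12⁻¹) := by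
        rw [x1, pow_succ, pow_succ]
      have e3 : x (4 * (k + 1) + 2) = 16 * ((12 : ℝ)⁻¹ ^ k * 12⁻¹ * 12⁻¹) := by
        rw [x2, pow_succ, pow_succ]
      have e4 : x (4 * (k + 1) + 3) = 16 * ((12 : ℝ)⁻¹ ^ k * 12⁻¹ * 12⁻¹) := by
        rw [x3, pow_succ, pow_succ]
      have hmod := Int.emod_add_mul_ediv N 12
      have h0 := Int.emod_nonneg N (show (12:ℤ) ≠ 0 by norm_num)
      have h1 := Int.emod_lt_of_pos N (show (0:ℤ) < 12 by norm_num)
      set q := N / 12 with hq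
      -- general step: `N = e + 12 N'` with `e = 3 ε + 2 c`
      have gen : ∀ (e N' : ℤ) (B : Finset ℕ), N = e + 12 * N' →
          (∀ l ∈ B, l = 4 * k ∨ (4 * (k + 1) < l ∧ l < 4 * (k + 2))) →
          ∑ l ∈ B, x l = (e : ℝ) / 3 * ((12 : ℝ)⁻¹ ^ k * 12⁻¹) →
          ∃ (N' : ℤ) (B : Finset ℕ), (∀ l ∈ B, l = 4 * k ∨ (4 * (k + 1) < l ∧ l < 4 * (k + 2))) ∧
            (N : ℝ) / 3 * (12 : ℝ)⁻¹ ^ (k + 1) = (N' : ℝ) / 3 * (12 : ℝ)⁻¹ ^ k + ∑ l ∈ B, x l := by
        intro e N' B hN hB hs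
        refine ⟨N', B, hB, ?_⟩
        rw [hs, hN, pow_succ]
        push_cast
        ring
      have hN : N = N % 12 + 12 * q := hmod.symm
      generalize N % 12 = r at hN h0 h1
      interval_cases r
      · exact gen 0 q ∅ (by omega) (by simp) (by simp)
      · -- 1 = 13 - 12
        refine gen 13 (q - 1) {4 * k, 4 * (k + 1) + 1, 4 * (k + 1) + 2, 4 * (k + 1) + 3} (by omega) ?_ ?_
        · intro l hl; simp at hl; omega
        · rw [Finset.sum_insert (by simp; omega), Finset.sum_insert (by simp),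
            Finset.sum_insert (by simp), Finset.sum_singleton, e1, e2, e3, e4]
          push_cast; ring
      · refine gen 2 q {4 * (k + 1) + 1} (by omega) ?_ ?_
        · intro l hl; simp at hl; omega
        · rw [Finset.sum_singleton, e2]; push_cast; ring
      · refine gen 3 q {4 * k} (by omega) ?_ ?_
        · intro l hl; simp at hl; omega
        · rw [Finset.sum_singleton, e1]; push_cast; ring
      · refine gen 4 q {4 * (k + 1) + 2} (by omega) ?_ ?_
        · intro l hl; simp at hl; omega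
        · rw [Finset.sum_singleton, e3]; push_cast; ring
      · refine gen 5 q {4 * k, 4 * (k + 1) + 1} (by omega) ?_ ?_
        · intro l hl; simp at hl; omega
        · rw [Finset.sum_insert (by simp; omega), Finset.sum_singleton, e1, e2]; push_cast; ring
      · refine gen 6 q {4 * (k + 1) + 1, 4 * (k + 1) + 2} (by omega) ?_ ?_
        · intro l hl; simp at hl; omega
        · rw [Finset.sum_insert (by simp), Finset.sum_singleton, e2, e3]; push_cast; ring
      · refine gen 7 q {4 * k, 4 * (k + 1) + 2} (by omega) ?_ ?_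
        · intro l hl; simp at hl; omega
        · rw [Finset.sum_insert (by simp; omega), Finset.sum_singleton, e1, e3]; push_cast; ring
      · refine gen 8 q {4 * (k + 1) + 2, 4 * (k + 1) + 3} (by omega) ?_ ?_
        · intro l hl; simp at hl; omega
        · rw [Finset.sum_insert (by simp), Finset.sum_singleton, e3, e4]; push_cast; ring
      · refine gen 9 q {4 * k, 4 * (k + 1) + 1, 4 * (k + 1) + 2} (by omega) ?_ ?_
        · intro l hl; simp at hl; omega
        · rw [Finset.sum_insert (by simp; omega), Finset.sum_insert (by simp),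
            Finset.sum_singleton, e1, e2, e3]
          push_cast; ring
      · refine gen 10 q {4 * (k + 1) + 1, 4 * (k + 1) + 2, 4 * (k + 1) + 3} (by omega) ?_ ?_
        · intro l hl; simp at hl; omega
        · rw [Finset.sum_insert (by simp), Finset.sum_insert (by simp),
            Finset.sum_singleton, e2, e3, e4]
          push_cast; ring
      · refine gen 11 q {4 * k, 4 * (k + 1) + 2, 4 * (k + 1) + 3} (by omega) ?_ ?_
        · intro l hl; simp at hl; omega
        · rw [Finset.sum_insert (by simp; omega), Finset.sum_insert (by simp),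
            Finset.sum_singleton, e1, e3, e4]
          push_cast; ring
    obtain ⟨N', B, hB, hNB⟩ := key
    obtain ⟨m, A, hA, hmA⟩ := ih N'
    refine ⟨m, A ∪ B, ?_, ?_⟩
    · intro l hl
      rcases Finset.mem_union.1 hl with h | h
      · have := hA l h; omega
      · have := hB l h; omega
    · have hdisj : Disjoint A B := by
        rw [Finset.disjoint_left]
        intro l h1 h2
        have := hA l h1
        have := hB l h2
        omega
      rw [Finset.sum_union hdisj, hNB, hmA]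
      ring

def Z3 : Set ℝ := Set.range (fun m : ℤ => (m : ℝ) / 3)

lemma Z3_closed : IsClosed Z3 := by
  have h : Z3 = (fun y : ℝ => y * 3) ⁻¹' (Set.range (Int.cast : ℤ → ℝ)) := by
    ext y
    constructor
    · rintro ⟨m, rfl⟩
      exact ⟨m, by simp⟩
    · rintro ⟨m, hm⟩
      refine ⟨m, ?_⟩
      simp only at hm ⊢
      rw [hm]; ring
  rw [h]
  exact (Int.isClosedEmbedding_coe_real.isClosed_range).preimage (by fun_prop)

lemma sum_univ : Z3 + E = Set.univ := by
  have hcl : IsClosed (Z3 + E) := Z3_closed.add_right_of_isCompact E_compact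
  rw [← hcl.closure_eq, ← dense_iff_closure_eq]
  intro y
  rw [Metric.mem_closure_iff]
  intro ε hε
  obtain ⟨k, hk⟩ := exists_pow_lt_of_lt_one hε (show (12:ℝ)⁻¹ < 1 by norm_num)
  obtain ⟨m, A, -, hmA⟩ := expand k ⌊y * 3 * 12 ^ k⌋
  refine ⟨(m : ℝ) / 3 + ∑ l ∈ A, x l, Set.add_mem_add ⟨m, rfl⟩ (finset_mem A), ?_⟩
  rw [← hmA, Real.dist_eq]
  have h1 := Int.floor_le (y * 3 * 12 ^ k)
  have h2 := Int.lt_floor_add_one (y * 3 * 12 ^ k)
  have hp : (0:ℝ) < (12:ℝ)⁻¹ ^ k := by positivity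
  have hpp : (12:ℝ) ^ k * (12:ℝ)⁻¹ ^ k = 1 := by rw [← mul_pow]; norm_num
  have h3 : y = (y * 3 * 12 ^ k) / 3 * (12:ℝ)⁻¹ ^ k := by
    have : (y * 3 * 12 ^ k) / 3 * (12:ℝ)⁻¹ ^ k = y * (12 ^ k * (12:ℝ)⁻¹ ^ k) := by ring
    rw [this, hpp, mul_one]
  have h4 : y - (⌊y * 3 * 12 ^ k⌋ : ℝ) / 3 * (12:ℝ)⁻¹ ^ k =
      (y * 3 * 12 ^ k - ⌊y * 3 * 12 ^ k⌋) / 3 * (12:ℝ)⁻¹ ^ k := by
    nth_rewrite 1 [h3]
    ring
  rw [h4, abs_of_nonneg (by
    apply mul_nonneg _ hp.le
    linarith)]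
  have h5 : (y * 3 * 12 ^ k - ⌊y * 3 * 12 ^ k⌋) / 3 * (12:ℝ)⁻¹ ^ k ≤ 1 * (12:ℝ)⁻¹ ^ k := by
    apply mul_le_mul_of_nonneg_right _ hp.le
    linarith
  linarith

lemma volume_pos : 0 < volume E := by
  rw [pos_iff_ne_zero]
  intro h0
  have hU : (⋃ m : ℤ, (fun e => (m : ℝ) / 3 + e) '' E) = Set.univ := by
    rw [← sum_univ]
    ext y
    simp only [Set.mem_iUnion, Set.mem_image, Set.mem_add, Z3, Set.mem_range]
    constructor
    · rintro ⟨m, e, he, rfl⟩
      exact ⟨_, ⟨m, rfl⟩, e, he, rfl⟩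
    · rintro ⟨_, ⟨m, rfl⟩, e, he, rfl⟩
      exact ⟨m, e, he, rfl⟩
  have h1 : volume (⋃ m : ℤ, (fun e => (m : ℝ) / 3 + e) '' E) = 0 := by
    rw [measure_iUnion_null_iff]
    intro m
    rw [Set.image_add_left, measure_preimage_add]
    exact h0
  rw [hU] at h1
  simp at h1

/-- The negated form of Q1, with the additional property that the `k_i` are coprime. -/
theorem result : ∃ (n m : ℕ) (_ : NeZero m) (k : Fin m → ℕ),
    2 ≤ n ∧ (∀ i, 0 < k i ∧ ¬ n ∣ k i) ∧
    (Finset.univ.gcd k = 1) ∧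
    (subsums m k).card = n ∧
    0 < volume (achievementSet (term n m k)) ∧
    ∃ s ∈ subsums m k, ∃ t ∈ subsums m k, s ≠ t ∧ s ≡ t [MOD n] := by
  refine ⟨12, 4, inferInstance, kk, by norm_num, by decide, by decide, by decide, ?_,
    0, by decide, 24, by decide, by norm_num, by decide⟩
  exact volume_pos

end Pool.Agent.Results.MP_ee56ef_an.Counterexample
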